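import Pool.Agent.W973.IP.FDefs

set_option autoImplicit false

namespace Pool.Agent.W280.IP

open Pool.Agent.W973.IP Pool.Agent.NPC Pool.Agent.NPC.ER Pool.Agent.NPC.H612

theorem gapF_iff (E : List ℕ) (S : List ER.Con) (r : ℕ) (x : ℕ → ℝ) :
    (gapF E S r).Holds x ↔ (body E S r).Holds x ∧ x (nm 9 0 0) = x (nm 0 0 0) ∧
      (chT (bb (nn S))).Holds x ∧ x (nm 2 0 0) = x (nm 0 0 0) ∧ 0 < x (nm 0 0 0) ∧
      0 < x (nm 1 0 0) ∧ x (nm 1 0 0) ≤ x (nm 9 (bb (nn S)) 0) := by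
  unfold gapF
  rw [holds_conj]
  simp only [List.forall_mem_cons, List.forall_mem_nil, List.not_mem_nil, and_true, false_imp_iff, implies_true]
  exact Iff.rfl

theorem gapfT (h1 : S_BODY) (h2 : S_CH) (h3 : S_ASG) : S_GAPF := by
  intro E S r c e u w lam hr hc he hle hFJ hgap ε hε
  obtain ⟨x, x0, x1, x2, x3, x4, x5, x9, xch⟩ := h3 (nn S) r c e c c u w lam
  have x90 : x (nm 9 0 0) = c := by rw [x9 0]; simp
  have hF : (gapF E S r).Holds x := by
    rw [gapF_iff]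
    refine ⟨(h1 E S r x).mpr ⟨xch, ?_⟩, ?_, ?_, ?_, ?_, ?_, ?_⟩
    · have e3 : (fun l : Fin (nn S) => x (nm 3 l 0)) = u := funext x3
      have e4 : (fun (i : Fin (r + 1)) (j : Fin (nn S)) => x (nm 4 i j)) = w := by
        funext i j; exact x4 i j
      have e5 : (fun i : Fin (r + 1) => x (nm 5 i 0)) = lam := funext x5
      unfold FJx
      rw [e3, e4, e5, x0, x1, x2]
      exact hFJ
    · rw [x90, x0]
    · rw [h2.2.2.2]
      intro t _
      rw [x9 t, x90]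
    · rw [x2, x0]
    · rw [x0]; exact hc
    · rw [x1]; exact he
    · rw [x1, x9]; exact hle
  have hD : (gapD E S).Holds x := by
    unfold gapD
    rw [holds_disj]
    exact ⟨gapF E S r, List.mem_map.mpr ⟨r, List.mem_range.mpr (by omega), rfl⟩, hF⟩
  have hpos : ∀ y, (gapD E S).Holds y → 0 < y (nm 0 0 0) := by
    intro y hy
    unfold gapD at hy
    rw [holds_disj] at hy
    obtain ⟨φ, hφ, hy⟩ := hy
    obtain ⟨r', hr', rfl⟩ := List.mem_map.mp hφ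
    exact ((gapF_iff E S r' y).mp hy).2.2.2.2.1
  have hsm : x (nm 0 0 0) * 2 ^ (2 ^ kap (sysOf (gapD E S)).length) ≤ 1 := by
    rw [x0]; exact hgap
  obtain ⟨y, hy, hyε⟩ := gap_small (gapD E S) (nm 0 0 0) hpos hD hsm ε hε
  unfold gapD at hy
  rw [holds_disj] at hy
  obtain ⟨φ, hφ, hy⟩ := hy
  obtain ⟨r', hr', rfl⟩ := List.mem_map.mp hφ
  obtain ⟨hb, y9, hch, y2, y0, y1, yle⟩ := (gapF_iff E S r' y).mp hy
  have hFJ' := ((h1 E S r' y).mp hb).2
  unfold FJx at hFJ'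
  rw [y2] at hFJ'
  have h9 := (h2.2.2.2 (bb (nn S)) y).mp hch (bb (nn S)) le_rfl
  rw [y9] at h9
  rw [h9] at yle
  have hr'' := List.mem_range.mp hr'
  exact ⟨r', y (nm 0 0 0), y (nm 1 0 0), _, _, _, by omega, y0, hyε, y1, yle, hFJ'⟩

end Pool.Agent.W280.IP
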